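import Pool.Agent.H60.TP.Gap2

set_option autoImplicit false

/-!
# Top scale, all n: exactness and the two-vector bound

`E` is an invariant subspace of an orthogonal representation of the symmetric group; no nonzero vector
of `E` is fixed by the permutations of `a + 1` points. For `v ∈ E` fixed by the permutations of `A`,
`|A| = a`, and `c ∉ A`: `v + ∑ x ∈ A, ρ (swap x c) v = 0` (`exact_R`), and
`choose a s * |⟪ρ y v, w⟫| ≤ ‖v‖ * ‖w‖`, `s = |y A ∩ A|`, if `w` is fixed by the permutations of `A`
(`two_vector`).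
-/

open Finset Equiv Pool.H98.BE Pool.H60.TP
open scoped InnerProductSpace

namespace Pool.H61.TP2

variable {n : ℕ} {V : Type*} [NormedAddCommGroup V] [InnerProductSpace ℝ V]
variable {ρ : Perm (Fin n) →* (V →ₗ[ℝ] V)}

private theorem Two_mul (σ τ : Perm (Fin n)) (v : V) : ρ (σ * τ) v = ρ σ (ρ τ v) := by
  rw [map_mul]
  rfl

private theorem Two_one (v : V) : ρ 1 v = v := by
  rw [map_one]
  rfl

private theorem Two_swap_swap (x y : Fin n) (v : V) :
    ρ (Equiv.swap x y) (ρ (Equiv.swap x y) v) = v := by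
  rw [← Two_mul, Equiv.swap_mul_self, Two_one]

/-- the sum over the cosets is fixed by one more point -/
theorem fix_insert {A : Finset (Fin n)} {v : V} (hf : FixIn ρ A v) {c : Fin n} (hc : c ∉ A) :
    FixIn ρ (insert c A) (v + ∑ x ∈ A, ρ (Equiv.swap x c) v) := by
  classical
  -- two points of `A`
  have h1 : ∀ x' ∈ A, ∀ y' ∈ A, ρ (Equiv.swap x' y') (v + ∑ x ∈ A, ρ (Equiv.swap x c) v) =
      v + ∑ x ∈ A, ρ (Equiv.swap x c) v := by
    intro x' hx' y' hy'
    rw [map_add, hf x' hx' y' hy', map_sum]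
    congr 1
    have hcx : Equiv.swap x' y' c = c := by
      apply Equiv.swap_apply_of_ne_of_ne
      · rintro rfl
        exact hc hx'
      · rintro rfl
        exact hc hy'
    have hmem : ∀ x ∈ A, Equiv.swap x' y' x ∈ A := by
      intro x hx
      rcases eq_or_ne x x' with rfl | h2
      · rw [Equiv.swap_apply_left]
        exact hy'
      · rcases eq_or_ne x y' with rfl | h3
        · rw [Equiv.swap_apply_right]
          exact hx'
        · rw [Equiv.swap_apply_of_ne_of_ne h2 h3]
          exact hx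
    refine sum_nbij' (fun x => Equiv.swap x' y' x) (fun x => Equiv.swap x' y' x) hmem hmem ?_ ?_ ?_
    · intro x _
      rw [Equiv.swap_apply_self]
    · intro x _
      rw [Equiv.swap_apply_self]
    · intro x _
      rw [← Two_mul, Equiv.mul_swap_eq_swap_mul, hcx, Two_mul, hf x' hx' y' hy']
  -- a point of `A` and `c`
  have h2 : ∀ x' ∈ A, ρ (Equiv.swap x' c) (v + ∑ x ∈ A, ρ (Equiv.swap x c) v) =
      v + ∑ x ∈ A, ρ (Equiv.swap x c) v := by
    intro x' hx'
    rw [← add_sum_erase A _ hx', map_add, map_add, Two_swap_swap, map_sum]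
    have h3 : ∑ x ∈ A.erase x', ρ (Equiv.swap x' c) (ρ (Equiv.swap x c) v) =
        ∑ x ∈ A.erase x', ρ (Equiv.swap x c) v := by
      refine sum_congr rfl fun x hx => ?_
      have hxx := ne_of_mem_erase hx
      have hxA := mem_of_mem_erase hx
      have h4 : Equiv.swap x' c * Equiv.swap x c = Equiv.swap x c * Equiv.swap x' x := by
        have h5 := Equiv.mul_swap_eq_swap_mul (Equiv.swap x c) x' x
        rw [Equiv.swap_apply_left, Equiv.swap_apply_of_ne_of_ne hxx.symm
          (by rintro rfl; exact hc hx')] at h5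
        exact h5.symm
      rw [← Two_mul, h4, Two_mul, hf x' hx' x hxA]
    rw [h3]
    abel
  intro x hx y hy
  rw [mem_insert] at hx hy
  rcases hx with rfl | hx
  · rcases hy with rfl | hy
    · rw [Equiv.swap_self]
      exact Two_one _
    · rw [Equiv.swap_comm]
      exact h2 y hy
  · rcases hy with rfl | hy
    · exact h2 x hx
    · exact h1 x hx y hy

/-- exactness -/
theorem exact_R {E : Submodule ℝ V} (hE : Invar ρ E) {a : ℕ}
    (hmax : ∀ B : Finset (Fin n), B.card = a + 1 → ∀ v ∈ E, FixIn ρ B v → v = 0)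
    {A : Finset (Fin n)} (hA : A.card = a) {v : V} (hv : v ∈ E) (hf : FixIn ρ A v) {c : Fin n}
    (hc : c ∉ A) : v + ∑ x ∈ A, ρ (Equiv.swap x c) v = 0 :=
  hmax (insert c A) (by rw [card_insert_of_notMem hc, hA]) _
    (E.add_mem hv (E.sum_mem fun _ _ => hE _ _ hv)) (fix_insert hf hc)

/-- the two-vector bound -/
theorem two_vector (hρ : ∀ (σ : Perm (Fin n)) (u v : V), ⟪ρ σ u, ρ σ v⟫_ℝ = ⟪u, v⟫_ℝ)
    {E : Submodule ℝ V} (hE : Invar ρ E) {a : ℕ}
    (hmax : ∀ B : Finset (Fin n), B.card = a + 1 → ∀ v ∈ E, FixIn ρ B v → v = 0)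
    {A : Finset (Fin n)} (hA : A.card = a) {v w : V} (hv : v ∈ E) (hf : FixIn ρ A v)
    (hw : FixIn ρ A w) (y : Perm (Fin n)) :
    ((a.choose (A.filter (fun x => y x ∈ A)).card : ℕ) : ℝ) * |⟪ρ y v, w⟫_ℝ| ≤ ‖v‖ * ‖w‖ := by
  classical
  have hnorm : ∀ (σ : Perm (Fin n)) (u : V), ‖ρ σ u‖ = ‖u‖ := by
    intro σ u
    have h1 := hρ σ u u
    rw [real_inner_self_eq_norm_sq, real_inner_self_eq_norm_sq] at h1
    exact (sq_eq_sq₀ (norm_nonneg _) (norm_nonneg _)).1 h1
  have key : ∀ d : ℕ, ∀ y : Perm (Fin n), (A.filter (fun x => y x ∈ A)).card + d = a →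
      ((a.choose (A.filter (fun x => y x ∈ A)).card : ℕ) : ℝ) * |⟪ρ y v, w⟫_ℝ| ≤ ‖v‖ * ‖w‖ := by
    intro d
    induction d with
    | zero =>
      intro y hy
      rw [add_zero] at hy
      rw [hy, Nat.choose_self, Nat.cast_one, one_mul]
      refine (abs_real_inner_le_norm _ _).trans ?_
      rw [hnorm]
    | succ d ih =>
      intro y hy
      obtain ⟨s, hs⟩ : ∃ s, s = (A.filter (fun x => y x ∈ A)).card := ⟨_, rfl⟩
      rw [← hs] at hy ⊢
      -- a point outside `A` which is mapped into `A`
      obtain ⟨z, hz, hyz⟩ : ∃ z, z ∉ A ∧ y z ∈ A := by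
        by_contra hne
        push Not at hne
        have h1 : A ⊆ (A.filter (fun x => y x ∈ A)).image y := by
          intro b hb
          rw [mem_image]
          refine ⟨y.symm b, ?_, y.apply_symm_apply b⟩
          rw [mem_filter, y.apply_symm_apply]
          refine ⟨?_, hb⟩
          by_contra h2
          exact hne _ h2 (by rw [y.apply_symm_apply]; exact hb)
        have h2 := (card_le_card h1).trans card_image_le
        omega
      have h3 := exact_R hE hmax hA hv hf hz
      have h4 := congrArg (fun u => ⟪ρ y u, w⟫_ℝ) h3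
      simp only [map_add, map_sum, map_zero, inner_add_left, sum_inner, inner_zero_left] at h4
      have h5 : ∀ x, ρ y (ρ (Equiv.swap x z) v) = ρ (Equiv.swap (y x) (y z) * y) v := by
        intro x
        rw [← Two_mul, Equiv.mul_swap_eq_swap_mul]
      simp only [h5] at h4
      rw [← sum_filter_add_sum_filter_not A (fun x => y x ∈ A)] at h4
      have h6 : ∑ x ∈ A.filter (fun x => y x ∈ A), ⟪ρ (Equiv.swap (y x) (y z) * y) v, w⟫_ℝ =
          s * ⟪ρ y v, w⟫_ℝ := by
        rw [hs, ← nsmul_eq_mul, ← sum_const]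
        refine sum_congr rfl fun x hx => ?_
        have hx' := (mem_filter.1 hx).2
        have h7 := hρ (Equiv.swap (y x) (y z)) (ρ y v) w
        rw [hw _ hx' _ hyz] at h7
        rw [Two_mul, h7]
      have h7 : ∀ x ∈ A.filter (fun x => ¬ y x ∈ A),
          ((a.choose (s + 1) : ℕ) : ℝ) * |⟪ρ (Equiv.swap (y x) (y z) * y) v, w⟫_ℝ| ≤
            ‖v‖ * ‖w‖ := by
        intro x hx
        obtain ⟨hxA, hyx⟩ := mem_filter.1 hx
        have h8 : (A.filter (fun t => (Equiv.swap (y x) (y z) * y) t ∈ A)) =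
            insert x (A.filter (fun t => y t ∈ A)) := by
          ext t
          rw [mem_filter, mem_insert, mem_filter, Perm.mul_apply]
          constructor
          · rintro ⟨htA, ht⟩
            rcases eq_or_ne t x with rfl | htx
            · exact Or.inl rfl
            · right
              refine ⟨htA, ?_⟩
              have htz : t ≠ z := by
                rintro rfl
                exact hz htA
              rwa [Equiv.swap_apply_of_ne_of_ne (fun h => htx (y.injective h))
                (fun h => htz (y.injective h))] at ht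
          · rintro (rfl | ⟨htA, ht⟩)
            · rw [Equiv.swap_apply_left]
              exact ⟨hxA, hyz⟩
            · refine ⟨htA, ?_⟩
              have htx : t ≠ x := by
                rintro rfl
                exact hyx ht
              have htz : t ≠ z := by
                rintro rfl
                exact hz htA
              rwa [Equiv.swap_apply_of_ne_of_ne (fun h => htx (y.injective h))
                (fun h => htz (y.injective h))]
        have h9 : (A.filter (fun t => (Equiv.swap (y x) (y z) * y) t ∈ A)).card = s + 1 := by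
          have h10 : x ∉ A.filter (fun t => y t ∈ A) := fun h => hyx (mem_filter.1 h).2
          rw [h8, card_insert_of_notMem h10, hs]
        have h10 := ih (Equiv.swap (y x) (y z) * y) (by rw [h9]; omega)
        rwa [h9] at h10
      have h8 : (A.filter (fun x => ¬ y x ∈ A)).card = a - s := by
        have := card_filter_add_card_filter_not (s := A) (fun x => y x ∈ A)
        omega
      have h9 : ((s : ℝ) + 1) * |⟪ρ y v, w⟫_ℝ| ≤
          ∑ x ∈ A.filter (fun x => ¬ y x ∈ A), |⟪ρ (Equiv.swap (y x) (y z) * y) v, w⟫_ℝ| := by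
        have h10 : ((s : ℝ) + 1) * ⟪ρ y v, w⟫_ℝ =
            -∑ x ∈ A.filter (fun x => ¬ y x ∈ A), ⟪ρ (Equiv.swap (y x) (y z) * y) v, w⟫_ℝ := by
          rw [h6] at h4
          linarith
        have h11 : |((s : ℝ) + 1) * ⟪ρ y v, w⟫_ℝ| = ((s : ℝ) + 1) * |⟪ρ y v, w⟫_ℝ| := by
          rw [abs_mul, abs_of_nonneg (by positivity)]
        rw [← h11, h10, abs_neg]
        exact abs_sum_le_sum_abs _ _
      have hC : (0 : ℝ) < ((a.choose (s + 1) : ℕ) : ℝ) := by
        exact_mod_cast Nat.choose_pos (by omega)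
      have h10 : ((a.choose (s + 1) : ℕ) : ℝ) * (((s : ℝ) + 1) * |⟪ρ y v, w⟫_ℝ|) ≤
          ((a - s : ℕ) : ℝ) * (‖v‖ * ‖w‖) := by
        refine (mul_le_mul_of_nonneg_left h9 hC.le).trans ?_
        rw [mul_sum]
        refine (sum_le_sum h7).trans (le_of_eq ?_)
        rw [sum_const, h8, nsmul_eq_mul]
      have h11 : ((a.choose (s + 1) : ℕ) : ℝ) * ((s : ℝ) + 1) =
          ((a.choose s : ℕ) : ℝ) * ((a - s : ℕ) : ℝ) := by
        have := Nat.choose_succ_right_eq a s
        exact_mod_cast this
      have hpos : (0 : ℝ) < ((a - s : ℕ) : ℝ) := by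
        exact_mod_cast (by omega : 0 < a - s)
      rw [← mul_assoc, h11] at h10
      refine le_of_mul_le_mul_left ?_ hpos
      calc ((a - s : ℕ) : ℝ) * (((a.choose s : ℕ) : ℝ) * |⟪ρ y v, w⟫_ℝ|)
          = ((a.choose s : ℕ) : ℝ) * ((a - s : ℕ) : ℝ) * |⟪ρ y v, w⟫_ℝ| := by ring
        _ ≤ _ := h10
  refine key (a - (A.filter (fun x => y x ∈ A)).card) y ?_
  have := card_filter_le A (fun x => y x ∈ A)
  omega

end Pool.H61.TP2
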