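import Pool.Agent.H61.TP2.Two

set_option autoImplicit false

/-!
# Top scale, all n: `a * b ≥ n`

`exists_sgn`: `U ≠ 0` is invariant under the transpositions inside `S`, every `A ⊆ S` with a nonzero
vector of `U` fixed by the permutations of `A` has at most `a` points; if `k a < |S| + a` there are
`B ⊆ S`, `|B| = k`, and `u ≠ 0` in `U` with `ρ (swap x y) u = -u` for `x ≠ y` in `B`.
-/

open Finset Equiv Pool.H98.BE Pool.H60.TP
open scoped InnerProductSpace

namespace Pool.H61.TP2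

variable {n : ℕ} {V : Type*} [NormedAddCommGroup V] [InnerProductSpace ℝ V]

/-- `u` is mapped to `-u` by the transpositions inside `B` -/
def SgnIn (ρ : Perm (Fin n) →* (V →ₗ[ℝ] V)) (B : Finset (Fin n)) (u : V) : Prop :=
  ∀ x ∈ B, ∀ y ∈ B, x ≠ y → ρ (Equiv.swap x y) u = -u

/-- the representation times the sign -/
private noncomputable def Alt_tw (ρ : Perm (Fin n) →* (V →ₗ[ℝ] V)) :
    Perm (Fin n) →* (V →ₗ[ℝ] V) where
  toFun σ := ((Perm.sign σ : ℤ) : ℝ) • ρ σ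
  map_one' := by
    rw [map_one, map_one, Units.val_one, Int.cast_one, one_smul]
  map_mul' σ τ := by
    rw [map_mul, map_mul, Units.val_mul, Int.cast_mul, smul_mul_smul_comm]

variable {ρ : Perm (Fin n) →* (V →ₗ[ℝ] V)}

private theorem Alt_tw_swap {x y : Fin n} (h : x ≠ y) (u : V) :
    Alt_tw ρ (Equiv.swap x y) u = -ρ (Equiv.swap x y) u := by
  change (((Perm.sign (Equiv.swap x y) : ℤ) : ℝ) • ρ (Equiv.swap x y)) u = _
  rw [Perm.sign_swap h]
  simp

private theorem Alt_tw_fix {B : Finset (Fin n)} {u : V} :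
    FixIn (Alt_tw ρ) B u ↔ SgnIn ρ B u := by
  constructor
  · intro h x hx y hy hxy
    have h1 := h x hx y hy
    rw [Alt_tw_swap hxy] at h1
    exact neg_eq_iff_eq_neg.1 h1
  · intro h x hx y hy
    rcases eq_or_ne x y with rfl | hxy
    · rw [Equiv.swap_self]
      have h1 : Alt_tw ρ 1 u = u := by
        rw [map_one]
        rfl
      exact h1
    · rw [Alt_tw_swap hxy, h x hx y hy hxy, neg_neg]

/-- the dual of `fix_insert` -/
theorem sgn_insert {B : Finset (Fin n)} {u : V} (hu : SgnIn ρ B u) {x : Fin n} (hx : x ∉ B) :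
    SgnIn ρ (insert x B) (u - ∑ c ∈ B, ρ (Equiv.swap c x) u) := by
  have h1 := fix_insert (Alt_tw_fix.2 hu) hx
  rw [Alt_tw_fix] at h1
  have h2 : u + ∑ c ∈ B, Alt_tw ρ (Equiv.swap c x) u = u - ∑ c ∈ B, ρ (Equiv.swap c x) u := by
    rw [sub_eq_add_neg, ← sum_neg_distrib]
    congr 1
    refine sum_congr rfl fun c hc => ?_
    exact Alt_tw_swap (by rintro rfl; exact hx hc) u
  rwa [h2] at h1

/-- the vectors of `U` fixed by the permutations of `A` -/
def fixSub (ρ : Perm (Fin n) →* (V →ₗ[ℝ] V)) (U : Submodule ℝ V) (A : Finset (Fin n)) :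
    Submodule ℝ V where
  carrier := {u | u ∈ U ∧ FixIn ρ A u}
  zero_mem' := ⟨U.zero_mem, fun x _ y _ => map_zero _⟩
  add_mem' := by
    rintro u v ⟨hu, hu'⟩ ⟨hv, hv'⟩
    exact ⟨U.add_mem hu hv, fun x hx y hy => by rw [map_add, hu' x hx y hy, hv' x hx y hy]⟩
  smul_mem' := by
    rintro c u ⟨hu, hu'⟩
    exact ⟨U.smul_mem c hu, fun x hx y hy => by rw [map_smul, hu' x hx y hy]⟩

theorem mem_fixSub {U : Submodule ℝ V} {A : Finset (Fin n)} {u : V} :
    u ∈ fixSub ρ U A ↔ u ∈ U ∧ FixIn ρ A u := Iff.rfl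

/-- transpositions outside `A` preserve the vectors fixed by the permutations of `A` -/
theorem fixIn_swap {A : Finset (Fin n)} {u : V} (hu : FixIn ρ A u) {x y : Fin n} (hx : x ∉ A)
    (hy : y ∉ A) : FixIn ρ A (ρ (Equiv.swap x y) u) := by
  intro p hp q hq
  have h1 : Equiv.swap p q * Equiv.swap x y = Equiv.swap x y * Equiv.swap p q := by
    rw [Equiv.mul_swap_eq_swap_mul, Equiv.swap_apply_of_ne_of_ne, Equiv.swap_apply_of_ne_of_ne]
    · rintro rfl
      exact hy hp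
    · rintro rfl
      exact hy hq
    · rintro rfl
      exact hx hp
    · rintro rfl
      exact hx hq
  have h2 : ρ (Equiv.swap p q) (ρ (Equiv.swap x y) u) = ρ (Equiv.swap p q * Equiv.swap x y) u := by
    rw [map_mul]
    rfl
  have h3 : ρ (Equiv.swap x y * Equiv.swap p q) u = ρ (Equiv.swap x y) (ρ (Equiv.swap p q) u) := by
    rw [map_mul]
    rfl
  rw [h2, h1, h3, hu p hp q hq]

theorem fixIn_mono {A B : Finset (Fin n)} (h : A ⊆ B) {u : V} (hu : FixIn ρ B u) :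
    FixIn ρ A u := fun x hx y hy => hu x (h hx) y (h hy)

theorem fixIn_singleton (x : Fin n) (u : V) : FixIn ρ {x} u := by
  intro p hp q hq
  rw [mem_singleton] at hp hq
  subst hp hq
  rw [Equiv.swap_self]
  have h1 : ρ 1 u = u := by
    rw [map_one]
    rfl
  exact h1

/-- a set of maximal size inside `S` with a nonzero fixed vector in `U`, and exactness for it -/
theorem exists_maxA {S : Finset (Fin n)} {U : Submodule ℝ V} (hU : U ≠ ⊥)
    (hinv : ∀ x ∈ S, ∀ y ∈ S, ∀ u ∈ U, ρ (Equiv.swap x y) u ∈ U) :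
    ∃ A ⊆ S, (∃ v ∈ U, v ≠ 0 ∧ FixIn ρ A v) ∧
      (∀ B ⊆ S, ∀ v ∈ U, v ≠ 0 → FixIn ρ B v → B.card ≤ A.card) ∧
      ∀ u ∈ U, FixIn ρ A u → ∀ c ∈ S, c ∉ A → u + ∑ x ∈ A, ρ (Equiv.swap x c) u = 0 := by
  classical
  obtain ⟨v0, hv0, hv0'⟩ := U.ne_bot_iff.1 hU
  have hne : (S.powerset.filter (fun A => ∃ v ∈ U, v ≠ 0 ∧ FixIn ρ A v)).Nonempty := by
    refine ⟨∅, mem_filter.2 ⟨empty_mem_powerset S, v0, hv0, hv0', ?_⟩⟩
    intro x hx
    exact absurd hx (notMem_empty x)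
  obtain ⟨A, hA, hmax⟩ := exists_max_image _ (fun A : Finset (Fin n) => A.card) hne
  obtain ⟨hAS, hAv⟩ := mem_filter.1 hA
  rw [mem_powerset] at hAS
  have hmax' : ∀ B ⊆ S, ∀ v ∈ U, v ≠ 0 → FixIn ρ B v → B.card ≤ A.card := by
    intro B hB v hv hv0 hf
    exact hmax B (mem_filter.2 ⟨mem_powerset.2 hB, v, hv, hv0, hf⟩)
  refine ⟨A, hAS, hAv, hmax', ?_⟩
  intro u hu hf c hc hcA
  by_contra hne
  have h1 := hmax' (insert c A) (insert_subset hc hAS) _
    (U.add_mem hu (U.sum_mem fun x hx => hinv x (hAS hx) c hc u hu)) hne (fix_insert hf hcA)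
  rw [card_insert_of_notMem hcA] at h1
  omega

theorem exists_sgn (a k : ℕ) : ∀ (S : Finset (Fin n)) (U : Submodule ℝ V), U ≠ ⊥ →
    (∀ x ∈ S, ∀ y ∈ S, ∀ u ∈ U, ρ (Equiv.swap x y) u ∈ U) →
    (∀ A ⊆ S, ∀ v ∈ U, v ≠ 0 → FixIn ρ A v → A.card ≤ a) → k * a < S.card + a →
    ∃ B ⊆ S, B.card = k ∧ ∃ u ∈ U, u ≠ 0 ∧ SgnIn ρ B u := by
  classical
  induction k with
  | zero =>
    intro S U hU _ _ _
    obtain ⟨v0, hv0, hv0'⟩ := U.ne_bot_iff.1 hU
    refine ⟨∅, empty_subset S, card_empty, v0, hv0, hv0', ?_⟩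
    intro x hx
    exact absurd hx (notMem_empty x)
  | succ k ih =>
    intro S U hU hinv ha hk
    have hk' : k * a < S.card := by
      rw [Nat.succ_mul] at hk
      omega
    obtain ⟨A, hAS, ⟨v, hv, hv0, hfv⟩, hmax, hex⟩ := exists_maxA hU hinv
    have hAa : A.card ≤ a := ha A hAS v hv hv0 hfv
    have hA1 : 1 ≤ A.card := by
      obtain ⟨x, hx⟩ := card_pos.1 (Nat.lt_of_le_of_lt (Nat.zero_le _) hk')
      have h1 := hmax {x} (singleton_subset_iff.2 hx) v hv hv0 (fixIn_singleton x v)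
      rwa [card_singleton] at h1
    have hU' : fixSub ρ U A ≠ ⊥ := by
      rw [Submodule.ne_bot_iff]
      exact ⟨v, ⟨hv, hfv⟩, hv0⟩
    obtain ⟨B', hB', hB'k, u, ⟨hu, hfu⟩, hu0, hsu⟩ := ih (S \ A) (fixSub ρ U A) hU'
      (fun x hx y hy u hu => by
        obtain ⟨hxS, hxA⟩ := mem_sdiff.1 hx
        obtain ⟨hyS, hyA⟩ := mem_sdiff.1 hy
        exact ⟨hinv x hxS y hyS u hu.1, fixIn_swap hu.2 hxA hyA⟩)
      (fun A' hA' w hw hw0 hfw => ha A' (hA'.trans sdiff_subset) w hw.1 hw0 hfw)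
      (by
        rw [card_sdiff_of_subset hAS]
        have := card_le_card hAS
        omega)
    have hsum : ∑ x ∈ A, (u - ∑ c ∈ B', ρ (Equiv.swap c x) u) =
        ((A.card + B'.card : ℕ) : ℝ) • u := by
      rw [sum_sub_distrib, sum_comm, sum_const]
      have h1 : ∀ c ∈ B', ∑ x ∈ A, ρ (Equiv.swap c x) u = -u := by
        intro c hc
        obtain ⟨hcS, hcA⟩ := mem_sdiff.1 (hB' hc)
        have h2 := hex u hu hfu c hcS hcA
        rw [eq_neg_iff_add_eq_zero, add_comm, ← h2]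
        congr 1
        exact sum_congr rfl fun x _ => by rw [Equiv.swap_comm]
      rw [sum_congr rfl h1, sum_const, smul_neg, sub_neg_eq_add, ← add_smul, Nat.cast_smul_eq_nsmul]
    obtain ⟨x, hxA, hx0⟩ : ∃ x ∈ A, u - ∑ c ∈ B', ρ (Equiv.swap c x) u ≠ 0 := by
      by_contra hne
      push Not at hne
      rw [sum_congr rfl hne, sum_const_zero] at hsum
      rcases smul_eq_zero.1 hsum.symm with h1 | h1
      · have h2 : A.card + B'.card = 0 := by exact_mod_cast h1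
        omega
      · exact hu0 h1
    have hxB : x ∉ B' := fun h => (mem_sdiff.1 (hB' h)).2 hxA
    refine ⟨insert x B', insert_subset (hAS hxA) (hB'.trans sdiff_subset), ?_, _, ?_, hx0,
      sgn_insert hsu hxB⟩
    · rw [card_insert_of_notMem hxB, hB'k]
    · exact U.sub_mem hu (U.sum_mem fun c hc =>
        hinv c (mem_sdiff.1 (hB' hc)).1 x (hAS hxA) u hu)

/-- `a b ≥ n` -/
theorem ab_ge {E : Submodule ℝ V} (hE : Invar ρ E) (hne : E ≠ ⊥) {a b : ℕ}
    (ha : ∀ B : Finset (Fin n), B.card = a + 1 → ∀ v ∈ E, FixIn ρ B v → v = 0)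
    (hb : ∀ B : Finset (Fin n), B.card = b + 1 → ∀ v ∈ E, SgnIn ρ B v → v = 0) :
    n ≤ a * b := by
  by_contra hlt
  push Not at hlt
  obtain ⟨B, -, hB, u, hu, hu0, hs⟩ := exists_sgn (ρ := ρ) a (b + 1) univ E hne
    (fun x _ y _ u hu => hE _ _ hu)
    (fun A _ v hv hv0 hf => by
      by_contra h1
      push Not at h1
      obtain ⟨A', hA', hc⟩ := exists_subset_card_eq (show a + 1 ≤ A.card from h1)
      exact hv0 (ha A' hc v hv (fixIn_mono hA' hf)))
    (by
      rw [card_univ, Fintype.card_fin, Nat.succ_mul, mul_comm b a]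
      omega)
  exact hu0 (hb B hB u hu hs)

end Pool.H61.TP2
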