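import Pool.Agent.H61.TP2.Defs

set_option autoImplicit false

/-!
# Top scale, second part: every set is a union of arcs and of cycles

Induction on `|X|`. `X = ∅`: `w = 0`, `v = 0`. Otherwise:
(A) there is `s ∈ X` with `q⁻¹ s ∉ X`: let `L ≥ 1` be the least number with `(q ^ L) s ∉ X` (it exists,
otherwise `q⁻¹ s ∈ X`, as `q` has finite order). The `(q ^ t) s`, `t < L`, are different (if
`(q ^ t) s = s` with `0 < t`, `t` minimal, then `q⁻¹ s = (q ^ (t - 1)) s ∈ X`). `X' = X \ arc q s L` has
`ex X' q + 1 = ex X q` (the elements of `X` which leave `X` are those of `X'` and `(q ^ (L - 1)) s`; an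
`a ∈ X'` with `q a ∈ arc` would be in the arc or equal to `q⁻¹ s`). Take `w'` for `X'` and put
`w s = L` (`w' s = 0` because `s ∉ X'`: `arc q s k` contains `s` for `k > 0`); `v` does not change.
(B) otherwise `q⁻¹ X ⊆ X`, so `q X = X`, `ex X q = 0`: take any `s ∈ X` and `L` the length of its cycle,
the least number `≥ 1` with `(q ^ L) s = s`, so `L ≥ l` by `hq`. `X' = X \ arc q s L` is invariant too
(`ex X' q = 0`), `w s = L`, `v` grows by `1`.
-/

open Finset Equiv Pool.H98.BE Pool.H60.TP

namespace Pool.H61.TP2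

theorem exists_arcs {n l : ℕ} (hl : 1 ≤ l) {q : Perm (Fin n)} (hq : NoShort q (l - 1))
    (X : Finset (Fin n)) :
    ∃ w : Fin n → ℕ, ∑ s, w s = X.card ∧ univ.biUnion (fun s => arc q s (w s)) = X ∧
      ∃ v, (univ.filter (fun s => w s ≠ 0)).card = ex X q + v ∧ v * l ≤ X.card := by
  sorry

end Pool.H61.TP2
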