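import Mathlib

set_option autoImplicit false

/-!
# Top scale, second part: the multipliers

Let `Q` be the product of the primes `r < l` which divide `m`, `m = Q m'`. For `x : ZMod m` let
`e x = x.val / m' < Q`. Put `β x = ∏ r, b r (e x)` over these primes `r`, where `b r e = 1 - r` if `r ∣ e`
and `b r e = 1` otherwise. `β x` is a unit of `ZMod s`: `1 ≤ r - 1 < l` is prime to `s`. Let `d ≠ 0` have
order `h < l`, `r` a prime divisor of `h` (so `r < l`, `r ∣ m`). The sum over the coset `x + ⟨d⟩` is a sum
over cosets of the subgroup of order `r`, generated by `m / r = m' (Q / r)`: adding `m' (Q / r)` to `x`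
adds `Q / r` to `e x` (mod `Q`), which does not change `e x` modulo the other primes `r'` and runs
through all classes modulo `r`: the sum is a multiple of `(1 - r) + (r - 1) = 0`. (Any other proof is
fine; for instance through `ZMod m → ZMod Q'` by the Chinese remainder theorem and other choices of the
patterns on the cosets of the subgroup of order `Q`; or: it is enough to have `β` on each coset of the
subgroup of order `Q`.)
-/

open Finset

namespace Pool.H61.TP2

theorem exists_beta2 {m s l : ℕ} (hm : 1 ≤ m) (hs : ∀ t, 1 ≤ t → t < l → Nat.Coprime t s) :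
    ∃ β : ZMod m → ZMod s, (∀ x, IsUnit (β x)) ∧
      ∀ d : ZMod m, d ≠ 0 → addOrderOf d < l → ∀ x, ∑ t ∈ range (addOrderOf d), β (x + t • d) = 0 := by
  sorry

end Pool.H61.TP2
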