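import Pool.Agent.H60.TP.Defs

set_option autoImplicit false

/-!
# Top scale, second part: few permutations commute with a permutation with few cycles

As `cent_le` in `H60/TP/Cent`: at most `n / l` cycles.
-/

open Finset Equiv Pool.H98.BE Pool.H60.TP

namespace Pool.H61.TP2

theorem cent_le2 {n l : ℕ} (hl : 1 ≤ l) {q : Perm (Fin n)} (hq : NoShort q (l - 1)) :
    cent q ≤ n ^ (n / l) := by
  sorry

end Pool.H61.TP2
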