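import Mathlib

set_option autoImplicit false

/-!
# Top scale, second part: compositions

The number of the `w` with support `S`, `|S| = u ≥ 1`, and sum `i` is `choose (i - 1) (u - 1)`
(`w - 1` on `S` is in `piAntidiag S (i - u)`, `Finset.card_piAntidiag`); there are `choose n u` sets `S`.
`choose n u / choose (n - i) u ≤ (3 / 2) ^ u` for `u ≤ i`, `4 i ≤ n`: each factor
`(n - t) / (n - i - t)`, `t < u`, is at most `1 + i / (n - 2 i) ≤ 3 / 2`; so the sum is at most
`∑ u, choose (i - 1) (u - 1) (3 / 2) ^ u = (3 / 2) (5 / 2) ^ (i - 1)`.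
-/

open Finset

namespace Pool.H61.TP2

theorem sum_comp {n i : ℕ} (hi : 1 ≤ i) (hin : 4 * i ≤ n) :
    ∑ w ∈ piAntidiag (univ : Finset (Fin n)) i,
      1 / ((n - i).choose (univ.filter (fun s => w s ≠ 0)).card : ℝ) ≤ (5 / 2) ^ i := by
  sorry

end Pool.H61.TP2
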