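import Pool.Agent.H60.TP.Defs

set_option autoImplicit false

/-!
# Top scale, second part: definitions
-/

open Finset Equiv Pool.H98.BE Pool.H60.TP

namespace Pool.H61.TP2

/-- the number of elements of `X` which `y` maps out of `X` -/
def ex {n : ℕ} (X : Finset (Fin n)) (y : Perm (Fin n)) : ℕ := (X.filter (fun a => y a ∉ X)).card

/-- the permutations which fix the points of `I` -/
def Stab {n : ℕ} (I : Finset (Fin n)) : Finset (Perm (Fin n)) :=
  univ.filter (fun h => ∀ a ∈ I, h a = a)

theorem mem_stab {n : ℕ} {I : Finset (Fin n)} {h : Perm (Fin n)} :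
    h ∈ Stab I ↔ ∀ a ∈ I, h a = a := by
  rw [Stab, mem_filter]
  exact ⟨fun h => h.2, fun h => ⟨mem_univ _, h⟩⟩

/-- the arc of length `k` which starts at `s` -/
def arc {n : ℕ} (q : Perm (Fin n)) (s : Fin n) (k : ℕ) : Finset (Fin n) :=
  (range k).image (fun t => (q ^ t) s)

end Pool.H61.TP2
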