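import Pool.Agent.H61.TP2.Fixd

set_option autoImplicit false

/-!
# Top scale, second part: an invariant subspace of `Lev n i` has vectors fixed outside `i` points

Suppose not. For `|I| = i` and `w ∈ W` the vector `∑ h ∈ Stab I, qrho n h w` is in `W` and fixed outside
`I` (`fixes_sum`), so it is `0`. If `g` is fixed outside `I`, then `⟪w, g⟫ = ⟪qrho n h w, qrho n h g⟫ =
⟪qrho n h w, g⟫` for `h ∈ Stab I`, sum: `(n - i)! ⟪w, g⟫ = 0`. So `W` is orthogonal to `Lev n i`.
-/

open Finset Equiv Pool.H98.BE Pool.H60.TP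
open scoped InnerProductSpace

namespace Pool.H61.TP2

theorem exists_fixed {n i : ℕ} {W : Submodule ℝ (QV n)} (hne : W ≠ ⊥)
    (hW : Invar (qrho n) W) (hWl : W ≤ Lev n i) :
    ∃ I : Finset (Fin n), I.card = i ∧ ∃ w ∈ W, w ≠ 0 ∧ Fixes (qrho n) I w := by
  by_contra hcon
  push Not at hcon
  apply hne
  rw [Submodule.eq_bot_iff]
  intro w hw
  have key : ∀ g ∈ Lev n i, ⟪w, g⟫_ℝ = 0 := by
    intro g hg
    unfold Lev at hg
    induction hg using Submodule.span_induction with
    | mem g hg =>
        obtain ⟨I, hI, hgI⟩ := hg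
        have h0 : (∑ h ∈ Stab I, qrho n h w) = 0 := by
          by_contra hs
          exact hcon I hI _ (sum_mem fun h _ => hW h w hw) hs (fixes_sum w)
        have h1 : ∀ h ∈ Stab I, ⟪qrho n h w, g⟫_ℝ = ⟪w, g⟫_ℝ := by
          intro h hh
          have h2 : qrho n h g = g := by
            ext t
            rw [qrho_apply]
            exact fixes_stab hgI hh t
          conv_lhs => rw [← h2]
          exact qrho_inner h w g
        have h3 : ⟪∑ h ∈ Stab I, qrho n h w, g⟫_ℝ = (Stab I).card * ⟪w, g⟫_ℝ := by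
          rw [sum_inner, Finset.sum_congr rfl h1, Finset.sum_const, nsmul_eq_mul]
        rw [h0, inner_zero_left] at h3
        have h4 : ((Stab I).card : ℝ) ≠ 0 := by
          have h5 : (1 : Perm (Fin n)) ∈ Stab I := mem_stab.2 fun a _ => rfl
          exact_mod_cast (Finset.card_pos.2 ⟨1, h5⟩).ne'
        exact (mul_eq_zero.1 h3.symm).resolve_left h4
    | zero => exact inner_zero_right _
    | add x y _ _ hx hy => rw [inner_add_right, hx, hy, add_zero]
    | smul c x _ hx => rw [inner_smul_right, hx, mul_zero]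
  exact inner_self_eq_zero.1 (key w (hWl hw))

end Pool.H61.TP2
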