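import Pool.Agent.H61.TP2.Fixd

set_option autoImplicit false

/-!
# Top scale, second part: exact level `i`

`f` is fixed outside `I`, `|I| = i`, and orthogonal to `Lev n (i - 1)`; `a ∈ I`. The indicator `g` of
`{t : t b = z b for b ∈ I, b ≠ a}` is in `Lev n (i - 1)` (it is fixed outside `I.erase a`), so the sum
of `f` over this set is `0`. The `t` in the set with `t a = c` are the `(swap (z a) c * z) * h`,
`h ∈ Stab I` (`z a` and `c` are not among the `z b`, so `swap (z a) c * z` agrees with `z` on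
`I.erase a` and maps `a` to `c`), and `f` has the same value at all of them: so the sum of the
statement times `(n - i)!` is `0`.
-/

open Finset Equiv Pool.H98.BE Pool.H60.TP

namespace Pool.H61.TP2

private theorem exa_y {n : ℕ} {I : Finset (Fin n)} {a : Fin n} (z : Perm (Fin n)) {c : Fin n}
    (hc : ∀ b ∈ I, b ≠ a → z b ≠ c) :
    (Equiv.swap (z a) c * z) a = c ∧ ∀ b ∈ I, b ≠ a → (Equiv.swap (z a) c * z) b = z b := by
  constructor
  · rw [Perm.mul_apply, Equiv.swap_apply_left]
  · intro b hb hba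
    rw [Perm.mul_apply, Equiv.swap_apply_of_ne_of_ne]
    · intro h
      exact hba (z.injective h)
    · exact hc b hb hba

theorem exact_sum {n i : ℕ} {I : Finset (Fin n)} (hI : I.card = i) {f : QV n}
    (hf : Fixes (qrho n) I f) (ho : f ∈ (Lev n (i - 1))ᗮ) {a : Fin n} (ha : a ∈ I)
    (z : Perm (Fin n)) :
    ∑ c ∈ univ.filter (fun c => ∀ b ∈ I, b ≠ a → z b ≠ c), f (Equiv.swap (z a) c * z) = 0 := by
  classical
  set g : QV n := WithLp.toLp 2 (fun t => if ∀ b ∈ I, b ≠ a → t b = z b then (1 : ℝ) else 0) with hg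
  have hgt : ∀ t, g t = if ∀ b ∈ I, b ≠ a → t b = z b then (1 : ℝ) else 0 := fun t => rfl
  have hgL : g ∈ Lev n (i - 1) := by
    apply Submodule.subset_span
    refine ⟨I.erase a, ?_, ?_⟩
    · rw [card_erase_of_mem ha, hI]
    · intro x y hx hy
      ext t
      rw [qrho_apply, hgt, hgt]
      have h1 : (∀ b ∈ I, b ≠ a → (t * Equiv.swap x y) b = z b) ↔ ∀ b ∈ I, b ≠ a → t b = z b := by
        refine forall₃_congr fun b hb hba => ?_
        rw [Perm.mul_apply, Equiv.swap_apply_of_ne_of_ne]
        · rintro rfl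
          exact hx (mem_erase.2 ⟨hba, hb⟩)
        · rintro rfl
          exact hy (mem_erase.2 ⟨hba, hb⟩)
      simp only [h1]
  have h0 : inner ℝ g f = 0 := (Submodule.mem_orthogonal _ _).1 ho g hgL
  rw [qinner] at h0
  have h2 : ∑ t ∈ univ.filter (fun t : Perm (Fin n) => ∀ b ∈ I, b ≠ a → t b = z b), f t = 0 := by
    rw [← h0, sum_filter]
    refine sum_congr rfl fun t _ => ?_
    rw [hgt]
    split_ifs
    · rw [one_mul]
    · rw [zero_mul]
  have h3 : ∀ t ∈ univ.filter (fun t : Perm (Fin n) => ∀ b ∈ I, b ≠ a → t b = z b),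
      t a ∈ univ.filter (fun c => ∀ b ∈ I, b ≠ a → z b ≠ c) := by
    intro t ht
    rw [mem_filter] at ht ⊢
    refine ⟨mem_univ _, fun b hb hba h => hba (t.injective ?_)⟩
    rw [ht.2 b hb hba, h]
  rw [← sum_fiberwise_of_maps_to h3] at h2
  have h4 : ∀ c ∈ univ.filter (fun c => ∀ b ∈ I, b ≠ a → z b ≠ c),
      ∑ t ∈ (univ.filter (fun t : Perm (Fin n) => ∀ b ∈ I, b ≠ a → t b = z b)).filter
        (fun t => t a = c), f t = ((Stab I).card : ℝ) * f (Equiv.swap (z a) c * z) := by
    intro c hc
    rw [mem_filter] at hc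
    obtain ⟨hya, hyb⟩ := exa_y (I := I) (a := a) z hc.2
    set y := Equiv.swap (z a) c * z with hy
    have h5 : ∑ h ∈ Stab I, f (y * h) = ((Stab I).card : ℝ) * f y := by
      rw [← nsmul_eq_mul, ← sum_const]
      exact sum_congr rfl fun h hh => fixes_stab hf hh y
    rw [← h5]
    symm
    refine sum_nbij' (fun h => y * h) (fun t => y⁻¹ * t) ?_ ?_ ?_ ?_ ?_
    · intro h hh
      rw [mem_stab] at hh
      rw [mem_filter, mem_filter]
      refine ⟨⟨mem_univ _, fun b hb hba => ?_⟩, ?_⟩
      · rw [Perm.mul_apply, hh b hb]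
        exact hyb b hb hba
      · rw [Perm.mul_apply, hh a ha]
        exact hya
    · intro t ht
      rw [mem_filter, mem_filter] at ht
      rw [mem_stab]
      intro b hb
      rw [Perm.mul_apply, Perm.inv_eq_iff_eq]
      by_cases hba : b = a
      · rw [hba, hya]
        exact ht.2
      · rw [hyb b hb hba]
        exact ht.1.2 b hb hba
    · intro h _
      rw [inv_mul_cancel_left]
    · intro t _
      rw [mul_inv_cancel_left]
    · intro h _
      rfl
  rw [sum_congr rfl h4, ← mul_sum] at h2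
  rcases mul_eq_zero.1 h2 with h6 | h6
  · exfalso
    have h7 : (Stab I).card = 0 := by exact_mod_cast h6
    rw [card_eq_zero] at h7
    have h8 : (1 : Perm (Fin n)) ∈ Stab I := mem_stab.2 fun _ _ => rfl
    rw [h7] at h8
    exact absurd h8 (notMem_empty _)
  · exact h6

end Pool.H61.TP2
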