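import Pool.Agent.H61.TP2.Lev2

set_option autoImplicit false

/-!
# Top scale, second part: permutations without cycles shorter than `log n` are good

As `good_of` in `H60/TP/GoodOf`, with `ho_lev2`, `ho_slev2` in place of `ho_lev`, `ho_slev`.
-/

open Finset Equiv Pool.H98.BE Pool.H60.TP
open scoped InnerProductSpace

namespace Pool.H61.TP2

theorem good_two {n J l : ℕ} (hn : 100 ≤ n) (hJ : 2 ≤ J) (hk : 2 * J + 1 ≤ n / 2)
    (hj : 6 * (2 * J - 2) ≤ n) (hl : 4 ≤ l) (hnl : n ≤ 2 ^ l) {q : Perm (Fin n)}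
    (hq : NoShort q (l - 1)) (hs : Perm.sign q = 1 ∨ Perm.sign q = (-1) ^ (n - 1))
    (hc : cent q * ((n - 1) ^ 2 * (n - 2) ^ 2) ≤ 4 * ((n / 2).choose J) ^ 2) :
    Good q := by
  sorry

end Pool.H61.TP2
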