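import Mathlib

set_option autoImplicit false

/-!
# Top scale, second part: numbers for the high levels

Let `L = log n + 1`, so `n < 2 ^ L`, `2 ^ (L - 1) ≤ n`. `6 L ^ 2 ≤ n` implies `L ≥ 9` (for `L ≤ 8`:
`6 L ^ 2 ≥ 2 ^ L > n`), so `n ≥ 6 L ^ 2 ≥ 48 L + 31` (`L ≥ 9`) and `n ≥ 486`.
`n ^ (n / (3 L)) ≤ 2 ^ (L (n / (3 L))) ≤ 2 ^ (n / 3)`, `(n - 1) ^ 2 (n - 2) ^ 2 ≤ n ^ 4 ≤ 2 ^ (4 L)`.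
With `J = n / 12`: `n / 2 ≥ 6 J`, `choose (n / 2) J ≥ 6 ^ J` (each factor `(n / 2 - t) / (J - t) ≥ 6`;
compare `Num_pow_le` in `H60/TP/Num`), so `choose ^ 2 ≥ 36 ^ J ≥ 2 ^ (5 J)`, and
`n / 3 + 4 L ≤ 2 + 5 (n / 12)` since `12 (n / 12) ≥ n - 11`: `5 n - 55 + 24 ≥ 4 n + 48 L`.
-/

namespace Pool.H61.TP2

theorem num_high {n : ℕ} (hs : 6 * (Nat.log 2 n + 1) ^ 2 ≤ n) :
    100 ≤ n ∧ 2 ≤ n / 12 ∧ 2 * (n / 12) + 1 ≤ n / 2 ∧ 6 * (2 * (n / 12) - 2) ≤ n ∧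
      4 ≤ 3 * (Nat.log 2 n + 1) ∧ n ≤ 2 ^ (3 * (Nat.log 2 n + 1)) ∧
      n ^ (n / (3 * (Nat.log 2 n + 1))) * ((n - 1) ^ 2 * (n - 2) ^ 2) ≤
        4 * ((n / 2).choose (n / 12)) ^ 2 := by
  sorry

end Pool.H61.TP2
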