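import Mathlib

set_option autoImplicit false

/-!
# Top scale, second part: the shifts

Greedy: by induction over a finite set `A` there is `γ` with the property for `x, y ∈ A` (the relation
`addOrderOf (x - y) < l`, `x ≠ y` is symmetric); for a new `x` the number of forbidden values is at
most the number of `d ≠ 0` in `ZMod m` with `addOrderOf d < l`, which is at most
`∑ h < l, 2 ≤ h, φ h ≤ ∑ (h - 1) = (l - 1) (l - 2) / 2 < s` (`IsAddCyclic.card_addOrderOf_eq_totient` for
`h ∣ m`, no element of order `h` otherwise).
-/

open Finset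

namespace Pool.H61.TP2

theorem exists_gamma {m s l : ℕ} (hm : 1 ≤ m) (hs : (l - 1) * (l - 2) / 2 < s) :
    ∃ γ : ZMod m → ZMod s, ∀ x y, x ≠ y → addOrderOf (x - y) < l → γ x ≠ γ y := by
  sorry

end Pool.H61.TP2
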