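import Pool.Agent.H60.TP.Defs
import Pool.Agent.H61.TP2.Beta2
import Pool.Agent.H61.TP2.Gam

set_option autoImplicit false

/-!
# Top scale, second part: the Latin square of order `m s`

Rows `R (k, i) (x, j) = (x + k, j + β x * i + γ k)` on `ZMod m × ZMod s ≃ Fin (m * s)`. The quotient
`q = (R (k', i'))⁻¹ * R (k, i)` is `(x, j) ↦ (x + d, j + c x)`, `d = k - k'`,
`c x = β x * i - β (x + d) * i' + γ k - γ k'`, so `q ^ t : (x, j) ↦ (x + t d, j + ∑ r < t, c (x + r d))`.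
With `h = addOrderOf d ∣ m`: `q ^ (m s) = 1` because the sum over `m s` terms is `s (m / h)` times the sum
over a period. Let `1 ≤ t ≤ l - 1` and `q ^ t` fix `(x, j)`. Then `h ∣ t`, so `h < l`. If `d = 0`:
`i ≠ i'`, the shift is `t * β x * (i - i') ≠ 0` (`t` is a unit of `ZMod s` by `hs`). If `d ≠ 0`: the sums
of `β` vanish, the shift is `t * (γ k - γ k') ≠ 0`.
-/

open Finset Equiv Pool.H98.BE Pool.H60.TP

namespace Pool.H61.TP2

theorem exists_rows2 {m s l : ℕ} (hm : 1 ≤ m) (hl : 1 ≤ l)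
    (hs : ∀ t, 1 ≤ t → t < l → Nat.Coprime t s) (hs2 : (l - 1) * (l - 2) / 2 < s) :
    ∃ R : Fin (m * s) → Perm (Fin (m * s)), ∀ a b, a ≠ b →
      NoShort ((R a)⁻¹ * R b) (l - 1) ∧ ((R a)⁻¹ * R b) ^ (m * s) = 1 := by
  sorry

end Pool.H61.TP2
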