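import Pool.Agent.H60.TP.Main2
import Pool.Agent.H61.TP2.Rows2
import Pool.Agent.H61.TP2.Good2
import Pool.Agent.H61.TP2.Cent2
import Pool.Agent.H61.TP2.NumHigh

set_option autoImplicit false

/-!
# Top scale, second part: the theorem
-/

open Finset Equiv Pool.H60.Transp Pool.H98.BE Pool.H60.TP

namespace Pool.H61.TP2

theorem exists_good_rows2 {n s : ℕ} (hsn : s ∣ n) (hn : 0 < n)
    (hs : 6 * (Nat.log 2 n + 1) ^ 2 ≤ s)
    (hp : ∀ p, p.Prime → p ∣ s → 3 * (Nat.log 2 n + 1) ≤ p) :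
    ∃ R : Fin n → Perm (Fin n), ∀ a b, a ≠ b → Good ((R a)⁻¹ * R b) := by
  obtain ⟨m, rfl⟩ := hsn
  rw [mul_comm s m] at hn hs hp ⊢
  obtain ⟨L, hL⟩ : ∃ L, L = Nat.log 2 (m * s) + 1 := ⟨_, rfl⟩
  have hm : 1 ≤ m := Nat.pos_of_mul_pos_right hn
  have hsle : s ≤ m * s := Nat.le_mul_of_pos_left s hm
  obtain ⟨h100, hJ, hk, hj, hl, hnl, hc⟩ := num_high (hs.trans hsle)
  rw [← hL] at hs hp hl hnl hc
  have hcop : ∀ t, 1 ≤ t → t < 3 * L → Nat.Coprime t s := by
    intro t ht1 ht2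
    refine Nat.Coprime.symm (Nat.coprime_of_dvd fun p hpp hps hpt => ?_)
    have h1 := hp p hpp hps
    have h2 := Nat.le_of_dvd (by omega) hpt
    omega
  have hs2 : (3 * L - 1) * (3 * L - 2) / 2 < s := by
    have h1 : (3 * L - 1) * (3 * L - 2) ≤ 3 * L * (3 * L) :=
      Nat.mul_le_mul (by omega) (by omega)
    have h2 : 3 * L * (3 * L) = 9 * L ^ 2 := by ring
    have h3 : 0 < L ^ 2 := by
      have : 0 < L := by omega
      positivity
    omega
  obtain ⟨R, hR⟩ := exists_rows2 hm (by omega) hcop hs2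
  refine ⟨R, fun a b hab => ?_⟩
  obtain ⟨h1, h2⟩ := hR a b hab
  refine good_two h100 hJ hk hj hl hnl h1 ?_ ((Nat.mul_le_mul_right _ (cent_le2 (by omega) h1)).trans hc)
  rcases Nat.even_or_odd (m * s) with he | ho
  · rcases Int.units_eq_one_or (Perm.sign ((R a)⁻¹ * R b)) with hs | hs
    · exact Or.inl hs
    · right
      rw [hs]
      have hodd : Odd (m * s - 1) := Nat.Even.sub_odd (by omega) he odd_one
      rw [hodd.neg_one_pow]
  · left
    have h3 := congrArg Perm.sign h2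
    rw [map_pow, map_one] at h3
    rcases Int.units_eq_one_or (Perm.sign ((R a)⁻¹ * R b)) with hs | hs
    · exact hs
    · rw [hs, ho.neg_one_pow] at h3
      exact absurd h3 (by decide)

theorem bd_lex_le_two {n s : ℕ} (hsn : s ∣ n) (hn : 0 < n) (hs : 6 * (Nat.log 2 n + 1) ^ 2 ≤ s)
    (hp : ∀ p, p.Prime → p ∣ s → 3 * (Nat.log 2 n + 1) ≤ p) (A : Finset (Perm (Fin n)))
    (hA : (n - 2).factorial ∣ A.card) : bd (lexInit n A.card) ≤ bd A := by
  obtain ⟨R, hR⟩ := exists_good_rows2 hsn hn hs hp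
  have h3 : 3 ≤ n := by
    have h1 := Nat.le_of_dvd hn hsn
    nlinarith [Nat.zero_le (Nat.log 2 n)]
  exact bd_lex_le_good h3 R hR A hA

end Pool.H61.TP2
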