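import Pool.Agent.H61.TP2.Defs

set_option autoImplicit false

/-!
# Top scale, second part: functions fixed outside a set

Right multiplication by a permutation `h` which fixes the points of `I` (a product of transpositions
outside `I`, `Equiv.Perm.swap_induction_on` on the points outside `I`, or: induction on the number of
points moved by `h`: if `h x ≠ x`, then `swap x (h x) * h` fixes `x` and still the points of `I`).
-/

open Finset Equiv Pool.H98.BE Pool.H60.TP

namespace Pool.H61.TP2

variable {n : ℕ} {I : Finset (Fin n)} {f : QV n}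

theorem fixes_stab (hf : Fixes (qrho n) I f) {h : Perm (Fin n)} (hh : h ∈ Stab I)
    (t : Perm (Fin n)) : f (t * h) = f t := by
  have key : ∀ k : ℕ, ∀ h : Perm (Fin n), h.support.card = k → h ∈ Stab I →
      ∀ t, f (t * h) = f t := by
    intro k
    induction k using Nat.strong_induction_on with
    | _ k ih =>
      intro h hk hh t
      by_cases h1 : h = 1
      · rw [h1, mul_one]
      · obtain ⟨x, hx⟩ : ∃ x, h x ≠ x := by
          by_contra hne
          push Not at hne
          exact h1 (Equiv.ext hne)
        rw [mem_stab] at hh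
        have hxI : x ∉ I := fun hxI => hx (hh x hxI)
        have hhxI : h x ∉ I := fun hxI => hx (h.injective (hh (h x) hxI))
        have h2 := Equiv.Perm.card_support_swap_mul hx
        have h3 : Equiv.swap x (h x) * h ∈ Stab I := by
          rw [mem_stab]
          intro a ha
          rw [Perm.mul_apply, hh a ha, Equiv.swap_apply_of_ne_of_ne]
          · rintro rfl
            exact hxI ha
          · rintro rfl
            exact hhxI ha
        have h4 : t * h = t * Equiv.swap x (h x) * (Equiv.swap x (h x) * h) := by
          rw [mul_assoc, ← mul_assoc (Equiv.swap x (h x)), Equiv.swap_mul_self, one_mul]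
        have h5 := ih _ (hk ▸ h2) _ rfl h3 (t * Equiv.swap x (h x))
        rw [h4, h5]
        have h6 := congrArg (fun g : QV n => g t) (hf x (h x) hxI hhxI)
        simp only [qrho_apply] at h6
        exact h6
  exact key _ h rfl hh t

theorem fixes_of_stab (hf : ∀ h ∈ Stab I, ∀ t, f (t * h) = f t) : Fixes (qrho n) I f := by
  intro x y hx hy
  ext t
  rw [qrho_apply]
  refine hf _ ?_ t
  rw [mem_stab]
  intro a ha
  rw [Equiv.swap_apply_of_ne_of_ne]
  · rintro rfl
    exact hx ha
  · rintro rfl
    exact hy ha

theorem card_stab {i : ℕ} (hI : I.card = i) : (Stab I).card = (n - i).factorial := by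
  classical
  have h1 : (Stab I).card = Fintype.card {h : Perm (Fin n) // ∀ a, ¬ (a ∉ I) → h a = a} := by
    rw [Fintype.card_subtype, Stab]
    congr 1
    ext h
    simp only [mem_filter, mem_univ, true_and, not_not]
  rw [h1, ← Fintype.card_congr (Equiv.Perm.subtypeEquivSubtypePerm (fun a => a ∉ I)),
    Fintype.card_perm]
  congr 1
  rw [Fintype.card_subtype]
  have h2 : (univ.filter fun a : Fin n => a ∉ I) = Iᶜ := by
    ext a
    simp
  rw [h2, card_compl, Fintype.card_fin, hI]

/-- the sum over `Stab I` is fixed outside `I` -/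
theorem fixes_sum (w : QV n) : Fixes (qrho n) I (∑ h ∈ Stab I, qrho n h w) := by
  refine fixes_of_stab fun h0 hh0 t => ?_
  have h1 : ∀ s : Perm (Fin n), (∑ h ∈ Stab I, qrho n h w) s = ∑ h ∈ Stab I, w (s * h) := by
    intro s
    rw [WithLp.ofLp_sum, Finset.sum_apply]
    exact sum_congr rfl fun h _ => qrho_apply h w s
  rw [h1, h1]
  refine sum_nbij' (fun h => h0 * h) (fun h => h0⁻¹ * h) ?_ ?_ ?_ ?_ ?_
  · intro h hh
    rw [mem_stab] at hh hh0 ⊢
    intro a ha
    rw [Perm.mul_apply, hh a ha, hh0 a ha]
  · intro h hh
    rw [mem_stab] at hh hh0 ⊢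
    intro a ha
    rw [Perm.mul_apply, hh a ha, Perm.inv_eq_iff_eq, hh0 a ha]
  · intro h _
    rw [inv_mul_cancel_left]
  · intro h _
    rw [mul_inv_cancel_left]
  · intro h _
    rw [mul_assoc]

end Pool.H61.TP2
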