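import Pool.Agent.H61.TP2.Mean

set_option autoImplicit false

/-!
# Top scale, second part: the eigenvalues at exact level `i`

Let `x` be a point where `|f x| = B` is maximal, `B > 0`. `KO q f` is `κ f`, which is fixed outside `I`,
so `(n - i)! κ f x = ∑ h ∈ Stab I, (KO q f) (x * h) = ∑ g, ∑ h ∈ Stab I, f (x * h * (g⁻¹ * q * g))`
(`KO_apply`, `qrho_apply`), and each inner sum is at most `(n - i)! B / choose (n - i) (ex I _)` by
`mean_bound` (the binomial coefficient is positive, as `ex I _ ≤ i ≤ n - i`).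
-/

open Finset Equiv Pool.H98.BE Pool.H60.TP

namespace Pool.H61.TP2

theorem kappa_bound {n i : ℕ} (hin : 2 * i ≤ n) {I : Finset (Fin n)} (hI : I.card = i) {f : QV n}
    (hf0 : f ≠ 0) (hf : Fixes (qrho n) I f) (ho : f ∈ (Lev n (i - 1))ᗮ) {q : Perm (Fin n)} {κ : ℝ}
    (hκ : KO q f = κ • f) :
    |κ| ≤ ∑ g : Perm (Fin n), 1 / ((n - i).choose (ex I (g⁻¹ * q * g)) : ℝ) := by
  classical
  -- a point of maximal absolute value
  obtain ⟨x, hx⟩ : ∃ x : Perm (Fin n), ∀ t, |f t| ≤ |f x| := by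
    obtain ⟨x, -, hx⟩ := exists_max_image (univ : Finset (Perm (Fin n))) (fun t => |f t|)
      ⟨1, mem_univ _⟩
    exact ⟨x, fun t => hx t (mem_univ t)⟩
  have hB0 : 0 < |f x| := by
    rw [abs_pos]
    intro h0
    apply hf0
    ext t
    have h1 := hx t
    rw [h0, abs_zero] at h1
    exact abs_nonpos_iff.1 h1
  set B : ℝ := |f x| with hB
  have hfac : (0 : ℝ) < ((n - i).factorial : ℝ) := by exact_mod_cast Nat.factorial_pos _
  -- the value of the operator
  have hval : ∀ t, κ * f t = ∑ g : Perm (Fin n), f (t * (g⁻¹ * q * g)) := by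
    intro t
    have h1 := congrArg (fun u : QV n => u t) (KO_apply q f)
    simp only [hκ] at h1
    rw [PiLp.smul_apply, smul_eq_mul] at h1
    rw [h1]
    have h2 : ∀ s : Finset (Perm (Fin n)), (∑ g ∈ s, qrho n (g⁻¹ * q * g) f) t
        = ∑ g ∈ s, f (t * (g⁻¹ * q * g)) := by
      intro s
      induction s using Finset.induction_on with
      | empty => simp
      | insert a s ha ih =>
        rw [sum_insert ha, sum_insert ha, PiLp.add_apply, ih, qrho_apply]
    exact h2 univ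
  have hsum : ((n - i).factorial : ℝ) * (κ * f x)
      = ∑ g : Perm (Fin n), ∑ h ∈ Stab I, f (x * h * (g⁻¹ * q * g)) := by
    rw [sum_comm]
    have h3 : ∀ h ∈ Stab I, ∑ g : Perm (Fin n), f (x * h * (g⁻¹ * q * g)) = κ * f x := by
      intro h hh
      rw [← hval, fixes_stab hf hh x]
    rw [sum_congr rfl h3, sum_const, card_stab hI, nsmul_eq_mul]
  have hbd : ∀ g : Perm (Fin n), |∑ h ∈ Stab I, f (x * h * (g⁻¹ * q * g))|
      ≤ ((n - i).factorial : ℝ) * B * (1 / ((n - i).choose (ex I (g⁻¹ * q * g)) : ℝ)) := by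
    intro g
    have h4 := mean_bound hin hI hf ho hx x (g⁻¹ * q * g)
    have h5 : ex I (g⁻¹ * q * g) ≤ n - i := by
      have h6 : ex I (g⁻¹ * q * g) ≤ i := by
        rw [← hI]
        exact card_filter_le _ _
      omega
    have h7 : (0 : ℝ) < ((n - i).choose (ex I (g⁻¹ * q * g)) : ℝ) := by
      exact_mod_cast Nat.choose_pos h5
    rw [mul_one_div, le_div_iff₀ h7, mul_comm]
    exact h4
  have h8 : ((n - i).factorial : ℝ) * (|κ| * B)
      ≤ ((n - i).factorial : ℝ) * B *
        ∑ g : Perm (Fin n), 1 / ((n - i).choose (ex I (g⁻¹ * q * g)) : ℝ) := by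
    calc ((n - i).factorial : ℝ) * (|κ| * B)
        = |((n - i).factorial : ℝ) * (κ * f x)| := by
          rw [abs_mul, abs_mul, abs_of_pos hfac]
      _ = |∑ g : Perm (Fin n), ∑ h ∈ Stab I, f (x * h * (g⁻¹ * q * g))| := by rw [hsum]
      _ ≤ ∑ g : Perm (Fin n), |∑ h ∈ Stab I, f (x * h * (g⁻¹ * q * g))| :=
          abs_sum_le_sum_abs _ _
      _ ≤ ∑ g : Perm (Fin n), ((n - i).factorial : ℝ) * B *
            (1 / ((n - i).choose (ex I (g⁻¹ * q * g)) : ℝ)) := sum_le_sum fun g _ => hbd g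
      _ = _ := by rw [mul_sum]
  have h9 : 0 < ((n - i).factorial : ℝ) * B := mul_pos hfac hB0
  refine le_of_mul_le_mul_left ?_ h9
  calc ((n - i).factorial : ℝ) * B * |κ| = ((n - i).factorial : ℝ) * (|κ| * B) := by ring
    _ ≤ _ := h8

end Pool.H61.TP2
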