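import Mathlib

set_option autoImplicit false

/-!
# Top scale, second part: numbers for the low levels

Induction on `i ≥ 4`. `i = 4`: `7500 ≤ n (n - 3)`. Step: `choose n (i + 1) * (i + 1) = choose n i * (n - i)`
and `n - i ≥ 5 (i + 1)`.
-/

namespace Pool.H61.TP2

theorem num_low {n i : ℕ} (hn : 100 ≤ n) (hi : 4 ≤ i) (hin : 6 * i ≤ n) :
    5 ^ i * ((n - 1) * (n - 2)) ≤ 2 * n.choose i := by
  sorry

end Pool.H61.TP2
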