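import Pool.Agent.H61.TP2.Fixd

set_option autoImplicit false

/-!
# Top scale, second part: from conjugates to subsets

`ex I (g⁻¹ * q * g) = ex (g I) q`, `g I = I.map g.toEmbedding` (or image), and every `X` with `|X| = i`
is `g I` for `i! (n - i)!` permutations `g` (for instance: the number of `g` with `g I = X` does not
depend on `X`, by left multiplication with a permutation that maps `X` to `X'`; or `n! = choose n i *
(i! (n - i)!)` and the orbit-stabiliser theorem; the stabiliser is `Perm I × Perm Iᶜ`).
-/

open Finset Equiv Pool.H98.BE Pool.H60.TP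

namespace Pool.H61.TP2

private theorem Orb_ex {n : ℕ} (I : Finset (Fin n)) (q g : Perm (Fin n)) :
    ex I (g⁻¹ * q * g) = ex (I.image g) q := by
  unfold ex
  rw [Finset.filter_image, Finset.card_image_of_injective _ g.injective]
  congr 1
  refine Finset.filter_congr fun a _ => not_congr ?_
  rw [Finset.mem_image]
  constructor
  · intro h
    exact ⟨_, h, by simp⟩
  · rintro ⟨b, hb, h⟩
    have e : (g⁻¹ * q * g) a = b := by
      rw [Perm.mul_apply, Perm.mul_apply, ← h]
      simp
    rw [e]
    exact hb

private theorem Orb_const {n : ℕ} {I X : Finset (Fin n)} (h : X.card = I.card) :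
    (univ.filter fun g : Perm (Fin n) => I.image g = X).card =
      (univ.filter fun g : Perm (Fin n) => I.image g = I).card := by
  classical
  let e : {x // x ∈ I} ≃ {x // x ∈ X} := Finset.equivOfCardEq h.symm
  let σ : Perm (Fin n) := e.extendSubtype
  have hσ : I.image σ = X := by
    refine Finset.eq_of_subset_of_card_le ?_ ?_
    · intro x hx
      obtain ⟨a, ha, rfl⟩ := Finset.mem_image.1 hx
      exact e.extendSubtype_mem a ha
    · rw [Finset.card_image_of_injective _ σ.injective, h]
  symm
  refine Finset.card_bij (fun g _ => σ * g) (fun g hg => ?_) (fun g _ g' _ h => mul_left_cancel h)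
    (fun g hg => ⟨σ⁻¹ * g, ?_, by rw [mul_inv_cancel_left]⟩)
  · rw [Finset.mem_filter] at hg ⊢
    refine ⟨mem_univ _, ?_⟩
    rw [Perm.coe_mul, ← Finset.image_image, hg.2, hσ]
  · rw [Finset.mem_filter] at hg ⊢
    refine ⟨mem_univ _, ?_⟩
    rw [Perm.coe_mul, ← Finset.image_image, hg.2, ← hσ, Finset.image_image, ← Perm.coe_mul, inv_mul_cancel,
      Perm.coe_one, Finset.image_id]

private theorem Orb_count {n i : ℕ} {I X : Finset (Fin n)} (hI : I.card = i) (hX : X.card = i) :
    (univ.filter fun g : Perm (Fin n) => I.image g = X).card = i.factorial * (n - i).factorial := by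
  classical
  have hin : i ≤ n := by
    rw [← hI]
    exact (Finset.card_le_univ I).trans_eq (Fintype.card_fin n)
  rw [Orb_const (hX.trans hI.symm)]
  have h1 : (univ : Finset (Perm (Fin n))).card =
      ∑ X ∈ powersetCard i (univ : Finset (Fin n)), (univ.filter fun g : Perm (Fin n) => I.image g = X).card := by
    refine Finset.card_eq_sum_card_fiberwise fun g _ => ?_
    rw [Finset.mem_coe, Finset.mem_powersetCard]
    exact ⟨Finset.subset_univ _, by rw [Finset.card_image_of_injective _ g.injective, hI]⟩
  rw [Finset.sum_congr rfl fun X hX => Orb_const ((Finset.mem_powersetCard.1 hX).2.trans hI.symm), Finset.sum_const,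
    Finset.card_powersetCard, Finset.card_univ, Finset.card_univ, Fintype.card_perm, Fintype.card_fin, smul_eq_mul,
    ← Nat.choose_mul_factorial_mul_factorial hin, mul_assoc] at h1
  exact (Nat.eq_of_mul_eq_mul_left (Nat.choose_pos hin) h1).symm

theorem sum_orb {n i : ℕ} {I : Finset (Fin n)} (hI : I.card = i) (q : Perm (Fin n)) (F : ℕ → ℝ) :
    ∑ g : Perm (Fin n), F (ex I (g⁻¹ * q * g)) = ((i.factorial * (n - i).factorial : ℕ) : ℝ) *
      ∑ X ∈ powersetCard i (univ : Finset (Fin n)), F (ex X q) := by
  classical
  have h1 : ∀ g ∈ (univ : Finset (Perm (Fin n))), I.image g ∈ powersetCard i (univ : Finset (Fin n)) := by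
    intro g _
    rw [Finset.mem_powersetCard]
    exact ⟨Finset.subset_univ _, by rw [Finset.card_image_of_injective _ g.injective, hI]⟩
  rw [Finset.mul_sum, ← Finset.sum_fiberwise_of_maps_to h1]
  refine Finset.sum_congr rfl fun X hX => ?_
  rw [Finset.sum_congr rfl (g := fun _ => F (ex X q)) fun g hg => by rw [Orb_ex, (Finset.mem_filter.1 hg).2], Finset.sum_const,
    Orb_count hI (Finset.mem_powersetCard.1 hX).2, nsmul_eq_mul]

end Pool.H61.TP2
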