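import Pool.Agent.H61.TP2.Arc
import Pool.Agent.H61.TP2.Comp

set_option autoImplicit false

/-!
# Top scale, second part: the sum over the subsets

Choose `w X` by `exists_arcs`; `X ↦ w X` is injective into `piAntidiag univ i`. With
`N = n - i`, `e = ex X q`, `|supp w| = e + v ≤ i ≤ N`, `v l ≤ i`:
`choose N (e + v) ≤ choose N e * N ^ v ≤ choose N e * 2 ^ (l v) ≤ choose N e * 2 ^ i`, so
`1 / choose N e ≤ 2 ^ i / choose N (e + v)`; now `sum_comp`.
-/

open Finset Equiv Pool.H98.BE Pool.H60.TP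

namespace Pool.H61.TP2

theorem sum_ex_le {n i l : ℕ} (hi : 1 ≤ i) (hin : 4 * i ≤ n) (hl : 1 ≤ l) (hnl : n ≤ 2 ^ l)
    {q : Perm (Fin n)} (hq : NoShort q (l - 1)) :
    ∑ X ∈ powersetCard i (univ : Finset (Fin n)), 1 / ((n - i).choose (ex X q) : ℝ) ≤ 5 ^ i := by
  sorry

end Pool.H61.TP2
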