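import Pool.Agent.H60.TP.LevInv
import Pool.Agent.H61.TP2.Kap
import Pool.Agent.H61.TP2.Orb
import Pool.Agent.H61.TP2.SumEx
import Pool.Agent.H61.TP2.NumLow
import Pool.Agent.H61.TP2.ExF

set_option autoImplicit false

/-!
# Top scale, second part: the form of `KO q` at exact level `i`

`kappa_le`: `exists_fixed` gives `I` and `f ∈ W`, `f ≠ 0`, fixed outside `I`; `kappa_bound`, `sum_orb`,
`sum_ex_le`: `|κ| ≤ i! (n - i)! 5 ^ i`, and `n! = choose n i * i! * (n - i)!`, `num_low`.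
`KO_form`: apply `exists_min_eig` (`H98/BE/SpecBasic`) to `KO q` and to `- KO q` on
`X = Lev n i ⊓ (Lev n (i - 1))ᗮ` (as in `ho_rest` of `H60/TP/PartC`), and `kappa_le` to the eigenspaces.
-/

open Finset Equiv Pool.H98.BE Pool.H60.TP
open scoped InnerProductSpace

namespace Pool.H61.TP2

variable {n i l : ℕ}

theorem kappa_le (hn : 100 ≤ n) (hi : 4 ≤ i) (hin : 6 * i ≤ n) (hl : 1 ≤ l) (hnl : n ≤ 2 ^ l)
    {q : Perm (Fin n)} (hq : NoShort q (l - 1)) {W : Submodule ℝ (QV n)} (hne : W ≠ ⊥)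
    (hW : Invar (qrho n) W) (h1 : W ≤ Lev n i) (h2 : W ≤ (Lev n (i - 1))ᗮ) {κ : ℝ}
    (hκ : ∀ w ∈ W, KO q w = κ • w) :
    ((n : ℝ) - 1) * ((n : ℝ) - 2) * |κ| ≤ 2 * (n.factorial : ℝ) := by
  sorry

theorem KO_form (hn : 100 ≤ n) (hi : 4 ≤ i) (hin : 6 * i ≤ n) (hl : 1 ≤ l) (hnl : n ≤ 2 ^ l)
    {q : Perm (Fin n)} (hq : NoShort q (l - 1)) {f : QV n} (hf : f ∈ Lev n i)
    (ho : f ∈ (Lev n (i - 1))ᗮ) :
    ((n : ℝ) - 1) * ((n : ℝ) - 2) * |⟪KO q f, f⟫_ℝ| ≤ 2 * (n.factorial : ℝ) * ⟪f, f⟫_ℝ := by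
  sorry

end Pool.H61.TP2
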