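import Pool.Agent.H60.TP.GoodOf
import Pool.Agent.H61.TP2.KForm

set_option autoImplicit false

/-!
# Top scale, second part: the inequality on the functions of few values, and on sign times them

`ho_exact`: `⟪HO q f, f⟫ = n! ⟪T2 f, f⟫ + 2 (n - 1) (n - 2) ⟪KO q f, f⟫`, `gap` (`Lev n 2 ≤ Lev n (i - 1)`,
`lev_mono`) and `KO_form`; `n (n - 5) + 4 = (n - 1) (n - 4)`. `ho_sexact`: `f = sgnm n h`,
`KO q f = sign q * sgnm n (KO q h)` (see `partB_KO` in `H60/TP/PartB`), `f ∈ (Lev n 2)ᗮ` by `lev_orth`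
(with `j = i`, `lev_mono`).
`ho_lev2`, `ho_slev2`: induction on `j`. For `j ≤ 3`: `lev_mono` and `ho_lev`, `ho_slev` for `3`. Step:
`f = a + b` with `a ∈ Lev n (j - 1)`, `b ∈ Lev n j ⊓ (Lev n (j - 1))ᗮ`
(`Submodule.exists_add_mem_mem_orthogonal`); `HO q` preserves `Lev n (j - 1)` (`HO_mem` in
`H60/TP/GoodOf`), so the cross terms vanish; `qsum n b = 0` since the constants are in `Lev n (j - 1)`.
-/

open Finset Equiv Pool.H98.BE Pool.H60.TP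
open scoped InnerProductSpace

namespace Pool.H61.TP2

variable {n i j l : ℕ}

theorem ho_exact (hn : 100 ≤ n) (hi : 4 ≤ i) (hin : 6 * i ≤ n) (hl : 1 ≤ l) (hnl : n ≤ 2 ^ l)
    {q : Perm (Fin n)} (hq : NoShort q (l - 1)) {f : QV n} (hf : f ∈ Lev n i)
    (ho : f ∈ (Lev n (i - 1))ᗮ) :
    ⟪HO q f, f⟫_ℝ ≤ (n.factorial : ℝ) * (((n : ℝ) - 1) * ((n : ℝ) - 4)) * ⟪f, f⟫_ℝ := by
  sorry

theorem ho_sexact (hn : 100 ≤ n) (hi : 4 ≤ i) (hin : 6 * i ≤ n) (hl : 1 ≤ l) (hnl : n ≤ 2 ^ l)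
    {q : Perm (Fin n)} (hq : NoShort q (l - 1)) {h : QV n} (hf : h ∈ Lev n i)
    (ho : h ∈ (Lev n (i - 1))ᗮ) :
    ⟪HO q (sgnm n h), sgnm n h⟫_ℝ ≤
      (n.factorial : ℝ) * (((n : ℝ) - 1) * ((n : ℝ) - 4)) * ⟪h, h⟫_ℝ := by
  sorry

theorem ho_lev2 (hn : 100 ≤ n) (hl : 4 ≤ l) (hnl : n ≤ 2 ^ l) (hj : 6 * j ≤ n)
    {q : Perm (Fin n)} (hq : NoShort q (l - 1)) {f : QV n} (hf : f ∈ Lev n j)
    (h0 : qsum n f = 0) :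
    ⟪HO q f, f⟫_ℝ ≤ (n.factorial : ℝ) * (((n : ℝ) - 1) * ((n : ℝ) - 4)) * ⟪f, f⟫_ℝ := by
  sorry

theorem ho_slev2 (hn : 100 ≤ n) (hl : 4 ≤ l) (hnl : n ≤ 2 ^ l) (hj : 6 * j ≤ n)
    {q : Perm (Fin n)} (hq : NoShort q (l - 1))
    (hs : Perm.sign q = 1 ∨ Perm.sign q = (-1) ^ (n - 1)) {f : QV n} (hf : f ∈ SLev n j) :
    ⟪HO q f, f⟫_ℝ ≤ (n.factorial : ℝ) * (((n : ℝ) - 1) * ((n : ℝ) - 4)) * ⟪f, f⟫_ℝ := by
  sorry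

end Pool.H61.TP2
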