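import Pool.Agent.H61.TP2.Exa

set_option autoImplicit false

/-!
# Top scale, second part: the mean over `Stab I`

Write `S y = ∑ h ∈ Stab I, f (x * h * y)`. Induction on `e = ex I y`, for all `y`. For `e = 0` there are
`(n - i)!` summands of absolute value at most `B` (`card_stab`). Let `e ≥ 1`, `a ∈ I`, `y a ∉ I`.
`exact_sum` for `z = x * h * y` gives, with `c' = (x * h) c`,
`∑ f (x * h * swap (y a) c * y) = 0`, the sum over the `c` different from all `y b`, `b ∈ I`, `b ≠ a`
(`swap ((x * h) (y a)) ((x * h) c) * (x * h * y) = x * h * swap (y a) c * y`). Sum over `h ∈ Stab I`: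
`∑_c S (swap (y a) c * y) = 0`. The `c ∉ I` (there are `n - i - (e - 1)` of them, `c = y a` is one):
`swap (y a) c ∈ Stab I`, so `S (swap (y a) c * y) = S y`. The `c ∈ I` (there are `e` of them):
`ex I (swap (y a) c * y) = e - 1`. So `(n - i - e + 1) |S y| ≤ e M`, where
`choose (n - i) (e - 1) * M ≤ (n - i)! B`; and `choose (n - i) e * e = choose (n - i) (e - 1) *
(n - i - e + 1)` (`Nat.choose_succ_right_eq`); `e ≤ i ≤ n - i`.
-/

open Finset Equiv Pool.H98.BE Pool.H60.TP

namespace Pool.H61.TP2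

variable {n : ℕ}

/-- the sum does not change if `y` is multiplied by an element of `Stab I` -/
private theorem mean_stab {I : Finset (Fin n)} (f : QV n) (x y : Perm (Fin n)) {g : Perm (Fin n)}
    (hg : g ∈ Stab I) :
    ∑ h ∈ Stab I, f (x * h * (g * y)) = ∑ h ∈ Stab I, f (x * h * y) := by
  refine Finset.sum_equiv (Equiv.mulRight g) (fun h => ?_) (fun h _ => ?_)
  · rw [mem_stab] at hg
    rw [Equiv.coe_mulRight, mem_stab, mem_stab]
    constructor
    · intro h1 a ha
      rw [Perm.mul_apply, hg a ha, h1 a ha]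
    · intro h1 a ha
      have := h1 a ha
      rwa [Perm.mul_apply, hg a ha] at this
  · rw [Equiv.coe_mulRight]
    simp only [mul_assoc]

private theorem mean_rel {i : ℕ} {I : Finset (Fin n)} (hI : I.card = i) {f : QV n}
    (hf : Fixes (qrho n) I f) (ho : f ∈ (Lev n (i - 1))ᗮ) (x y : Perm (Fin n)) {a : Fin n}
    (ha : a ∈ I) :
    ∑ c ∈ univ.filter (fun c => ∀ b ∈ I, b ≠ a → y b ≠ c),
      ∑ h ∈ Stab I, f (x * h * (Equiv.swap (y a) c * y)) = 0 := by
  rw [Finset.sum_comm]
  refine Finset.sum_eq_zero fun h _ => ?_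
  rw [← exact_sum hI hf ho ha (x * h * y)]
  refine Finset.sum_equiv (x * h) (fun c => ?_) (fun c _ => ?_)
  · rw [mem_filter, mem_filter]
    refine and_congr (by simp) (forall_congr' fun b => forall_congr' fun _ => forall_congr' fun _ => ?_)
    rw [Perm.mul_apply (x * h) y b, Ne, Ne, (x * h).injective.eq_iff]
  · rw [Perm.mul_apply (x * h) y a, Equiv.swap_apply_apply]
    refine congrArg f ?_
    group

private theorem mean_ex {I : Finset (Fin n)} {y : Perm (Fin n)} {a c : Fin n} (ha : a ∈ I)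
    (hya : y a ∉ I) (hc : c ∈ I) (hcy : ∀ b ∈ I, b ≠ a → y b ≠ c) :
    ex I (Equiv.swap (y a) c * y) + 1 = ex I y := by
  have h1 : I.filter (fun b => (Equiv.swap (y a) c * y) b ∉ I)
      = (I.filter (fun b => y b ∉ I)).erase a := by
    ext b
    rw [mem_filter, mem_erase, mem_filter]
    constructor
    · rintro ⟨hb, h2⟩
      have hba : b ≠ a := by
        rintro rfl
        apply h2
        rw [Perm.mul_apply, Equiv.swap_apply_left]
        exact hc
      refine ⟨hba, hb, ?_⟩
      rwa [Perm.mul_apply, Equiv.swap_apply_of_ne_of_ne (fun h => hba (y.injective h))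
        (hcy b hb hba)] at h2
    · rintro ⟨hba, hb, h2⟩
      refine ⟨hb, ?_⟩
      rwa [Perm.mul_apply, Equiv.swap_apply_of_ne_of_ne (fun h => hba (y.injective h))
        (hcy b hb hba)]
  have h2 : a ∈ I.filter (fun b => y b ∉ I) := mem_filter.2 ⟨ha, hya⟩
  rw [ex, ex, h1, card_erase_add_one h2]

private theorem mean_out {i : ℕ} {I : Finset (Fin n)} (hI : I.card = i) {y : Perm (Fin n)}
    {a : Fin n} (ha : a ∈ I) (hya : y a ∉ I) {e : ℕ} (he : ex I y = e + 1) :
    ((univ.filter (fun c => ∀ b ∈ I, b ≠ a → y b ≠ c)).filter (fun c => c ∉ I)).card + e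
      = n - i := by
  have h1 : (univ.filter (fun c => ∀ b ∈ I, b ≠ a → y b ≠ c)).filter (fun c => c ∉ I)
      = Iᶜ \ ((I.filter (fun b => y b ∉ I)).erase a).image y := by
    ext c
    rw [mem_filter, mem_filter, mem_sdiff, mem_compl, mem_image]
    constructor
    · rintro ⟨⟨_, h2⟩, h3⟩
      refine ⟨h3, ?_⟩
      rintro ⟨b, hb, rfl⟩
      rw [mem_erase, mem_filter] at hb
      exact h2 b hb.2.1 hb.1 rfl
    · rintro ⟨h3, h4⟩
      refine ⟨⟨mem_univ _, fun b hb hba hbc => h4 ⟨b, ?_, hbc⟩⟩, h3⟩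
      rw [mem_erase, mem_filter]
      exact ⟨hba, hb, by rw [hbc]; exact h3⟩
  have h2 : ((I.filter (fun b => y b ∉ I)).erase a).image y ⊆ Iᶜ := by
    intro c hc
    obtain ⟨b, hb, rfl⟩ := mem_image.1 hc
    rw [mem_erase, mem_filter] at hb
    rw [mem_compl]
    exact hb.2.2
  have h3 : (((I.filter (fun b => y b ∉ I)).erase a).image y).card = e := by
    rw [card_image_of_injective _ y.injective, card_erase_of_mem (mem_filter.2 ⟨ha, hya⟩)]
    rw [ex] at he
    omega
  have h4 := Finset.card_sdiff_add_card_eq_card h2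
  rw [h3, card_compl, Fintype.card_fin, hI] at h4
  rw [h1, h4]

private theorem mean_inn {i : ℕ} {I : Finset (Fin n)} (hI : I.card = i) {y : Perm (Fin n)}
    {a : Fin n} (hya : y a ∉ I) :
    ((univ.filter (fun c => ∀ b ∈ I, b ≠ a → y b ≠ c)).filter (fun c => c ∈ I)).card = ex I y := by
  have h1 : (univ.filter (fun c => ∀ b ∈ I, b ≠ a → y b ≠ c)).filter (fun c => c ∈ I)
      = I \ (I.filter (fun b => y b ∈ I)).image y := by
    ext c
    rw [mem_filter, mem_filter, mem_sdiff, mem_image]
    constructor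
    · rintro ⟨⟨_, h2⟩, h3⟩
      refine ⟨h3, ?_⟩
      rintro ⟨b, hb, rfl⟩
      rw [mem_filter] at hb
      refine h2 b hb.1 ?_ rfl
      rintro rfl
      exact hya hb.2
    · rintro ⟨h3, h4⟩
      refine ⟨⟨mem_univ _, fun b hb hba hbc => h4 ⟨b, ?_, hbc⟩⟩, h3⟩
      rw [mem_filter]
      exact ⟨hb, by rw [hbc]; exact h3⟩
  have h2 : (I.filter (fun b => y b ∈ I)).image y ⊆ I := by
    intro c hc
    obtain ⟨b, hb, rfl⟩ := mem_image.1 hc
    exact (mem_filter.1 hb).2
  have h4 := Finset.card_sdiff_add_card_eq_card h2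
  have h5 := Finset.card_filter_add_card_filter_not (s := I) (fun b => y b ∈ I)
  rw [card_image_of_injective _ y.injective] at h4
  rw [h1, ex]
  omega

theorem mean_bound {n i : ℕ} (hin : 2 * i ≤ n) {I : Finset (Fin n)} (hI : I.card = i) {f : QV n}
    (hf : Fixes (qrho n) I f) (ho : f ∈ (Lev n (i - 1))ᗮ) {B : ℝ} (hB : ∀ t, |f t| ≤ B)
    (x y : Perm (Fin n)) :
    ((n - i).choose (ex I y) : ℝ) * |∑ h ∈ Stab I, f (x * h * y)| ≤
      ((n - i).factorial : ℝ) * B := by
  have key : ∀ e : ℕ, ∀ y : Perm (Fin n), ex I y = e →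
      ((n - i).choose e : ℝ) * |∑ h ∈ Stab I, f (x * h * y)| ≤ ((n - i).factorial : ℝ) * B := by
    intro e
    induction e with
    | zero =>
      intro y _
      rw [Nat.choose_zero_right, Nat.cast_one, one_mul]
      refine (Finset.abs_sum_le_sum_abs _ _).trans ?_
      refine (Finset.sum_le_card_nsmul _ _ B fun h _ => hB _).trans ?_
      rw [card_stab hI, nsmul_eq_mul]
    | succ e ih =>
      intro y he
      obtain ⟨a, ha⟩ : (I.filter (fun a => y a ∉ I)).Nonempty := by
        rw [← Finset.card_pos]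
        change 0 < ex I y
        omega
      obtain ⟨ha, hya⟩ := mem_filter.1 ha
      have hrel := mean_rel hI hf ho x y ha
      have hout := mean_out hI ha hya he
      have hinn := mean_inn hI (y := y) (a := a) hya
      set F := univ.filter (fun c => ∀ b ∈ I, b ≠ a → y b ≠ c) with hF
      rw [← Finset.sum_filter_add_sum_filter_not F (fun c => c ∈ I)] at hrel
      have h1 : ∑ c ∈ F.filter (fun c => ¬ c ∈ I), ∑ h ∈ Stab I, f (x * h * (Equiv.swap (y a) c * y))
          = ((F.filter (fun c => c ∉ I)).card : ℝ) * ∑ h ∈ Stab I, f (x * h * y) := by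
        rw [← nsmul_eq_mul, ← Finset.sum_const]
        refine Finset.sum_congr rfl fun c hc => ?_
        refine mean_stab f x y (mem_stab.2 fun b hb => ?_)
        refine Equiv.swap_apply_of_ne_of_ne ?_ ?_
        · rintro rfl
          exact hya hb
        · rintro rfl
          exact (mem_filter.1 hc).2 hb
      have h2 : |∑ c ∈ F.filter (fun c => c ∈ I), ∑ h ∈ Stab I, f (x * h * (Equiv.swap (y a) c * y))|
          * ((n - i).choose e : ℝ) ≤ ((e : ℝ) + 1) * (((n - i).factorial : ℝ) * B) := by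
        have h3 : |∑ c ∈ F.filter (fun c => c ∈ I),
            ∑ h ∈ Stab I, f (x * h * (Equiv.swap (y a) c * y))| * ((n - i).choose e : ℝ)
            ≤ ∑ c ∈ F.filter (fun c => c ∈ I), ((n - i).choose e : ℝ)
              * |∑ h ∈ Stab I, f (x * h * (Equiv.swap (y a) c * y))| := by
          rw [← Finset.mul_sum, mul_comm]
          exact mul_le_mul_of_nonneg_left (Finset.abs_sum_le_sum_abs _ _) (Nat.cast_nonneg _)
        refine h3.trans ((Finset.sum_le_card_nsmul _ _ (((n - i).factorial : ℝ) * B)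
          fun c hc => ih _ ?_).trans ?_)
        · obtain ⟨hc1, hc2⟩ := mem_filter.1 hc
          have := mean_ex ha hya hc2 (mem_filter.1 hc1).2
          omega
        · rw [hinn, he, nsmul_eq_mul]
          push_cast
          exact le_rfl
      have hcard : ((F.filter (fun c => c ∉ I)).card : ℝ) = ((n - i : ℕ) : ℝ) - e := by
        rw [← hout]
        push_cast
        ring
      have hch : ((n - i).choose (e + 1) : ℝ) * ((e : ℝ) + 1)
          = ((n - i).choose e : ℝ) * (((n - i : ℕ) : ℝ) - e) := by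
        have h4 := Nat.choose_succ_right_eq (n - i) e
        have h5 : e ≤ n - i := by omega
        have h6 : (((n - i).choose (e + 1) * (e + 1) : ℕ) : ℝ)
            = (((n - i).choose e * (n - i - e) : ℕ) : ℝ) := by rw [h4]
        push_cast [Nat.cast_sub h5] at h6
        exact h6
      have hnn : (0 : ℝ) ≤ ((n - i : ℕ) : ℝ) - e := by
        rw [← hcard]
        exact Nat.cast_nonneg _
      have h7 : (((n - i : ℕ) : ℝ) - e) * |∑ h ∈ Stab I, f (x * h * y)|
          = |∑ c ∈ F.filter (fun c => c ∈ I),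
            ∑ h ∈ Stab I, f (x * h * (Equiv.swap (y a) c * y))| := by
        rw [h1, hcard] at hrel
        rw [eq_neg_of_add_eq_zero_left hrel, abs_neg, abs_mul, abs_of_nonneg hnn]
      rw [← h7] at h2
      have h8 : ((e : ℝ) + 1) * (((n - i).choose (e + 1) : ℝ) * |∑ h ∈ Stab I, f (x * h * y)|)
          ≤ ((e : ℝ) + 1) * (((n - i).factorial : ℝ) * B) := by
        calc _ = (((n - i).choose (e + 1) : ℝ) * ((e : ℝ) + 1)) * |∑ h ∈ Stab I, f (x * h * y)| := by
              ring
          _ = (((n - i : ℕ) : ℝ) - e) * |∑ h ∈ Stab I, f (x * h * y)| * ((n - i).choose e : ℝ) := by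
              rw [hch]
              ring
          _ ≤ _ := h2
      exact le_of_mul_le_mul_left h8 (by positivity)
  exact key _ y rfl

end Pool.H61.TP2
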